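import Pool.Agent.Run7.h570.GAP.Filt2

/-!
# MP_08891c_ag: one cycle and filtrations which are stable under correspondences

Let `X` be a smooth projective variety whose cohomology is the direct sum of a part spanned by `b`
algebraic classes `a_i` with rational intersection numbers (and an invertible intersection matrix `G`)
and of a part of odd degree and of dimension `2 n`: for instance a surface with `p_g = q = 0` (`n = 0`),
a quintic threefold (`b = 4`, `2 n = 204`), or any complete intersection of odd dimension. Let

`t = Δ - ∑ (G⁻¹)_(i, j) a_i × a_j ∈ CH(X × X)_ℚ`,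

and let `H` be the sum of the products `t_(i_1, j_1) ⋯ t_(i_(n+1), j_(n+1))` over all partitions of the
`2 n + 2` factors of `X ^ (2 n + 2)` into pairs. The cycle `H` is homologically trivial: its class is the
exterior power `ω ^ (n + 1) = 0` of the intersection form `ω` of the odd cohomology, of dimension `2 n`.

Let `F` be ANY descending filtration on the rings `CH(X ^ m)_ℚ`, `m ≥ 0`, with these properties, which follow
from the conditions of the problem: it is separated (weaker than condition 2); it is stable under
correspondences (condition 3), that is, the `F^i` are ideals, stable under pull-backs and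
push-forwards; and the correspondences in `F^1` map `F^i` to `F^(i+1)` (conditions 1 and 4), that is,
`F^1 F^i ⊆ F^(i+1)`. The condition that `F^1` is the ideal of ALL homologically trivial cycles is NOT assumed,
and neither is the condition on `F^2`.

Theorem.

1. The following are equivalent: `H ∈ F^1`; `H = 0`; `Sym^(2 n + 1) (X, t) = 0`, that is, `X` is finite-dimensional
   in the sense of Kimura; for some `N` the permanent `∑_σ ∏_i t_(i, N + σ(i))` is in `F^1`; for some partition
   `λ` which does not contain the rectangle with `3` rows and `2 n + 3` columns the Young symmetrizer of `λ`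
   acts on `(X, t) ^ (⊗ |λ|)` by a class in `F^1`.
2. If this is not the case then
   * at least `((b + 2 n + 4) ^ m + (b - 2 n - 4) ^ m) / (2 binomial(⌊m / 2⌋ + D, D))`,
     `D = (2 n + 3) (2 n + 5)`, of the products on `X ^ m` of disjoint diagonals and classes `a_i` (each
     factor of `X ^ m` used once) are linearly independent modulo `F^1`. Modulo homological equivalence
     they span a space of dimension at most `(b + 2 n) ^ m`; so `F^1` is smaller than the ideal of the
     homologically trivial cycles by a space of exponentially growing dimension;
   * if `∑_σ c_σ ∏_i t_(i, k + σ(i)) ∈ F^1` then `c` acts as zero on the `k`-th tensor power of the super vector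
     space with `2` even and `2 n + 2` odd dimensions;
   * for all `m < 6 (n + 2)` the `(m - 1)!!` products of the pull-backs of `t` to `X ^ m` for the partitions
     of the factors into pairs are linearly independent modulo `F^1`.

So for these varieties the condition `F^1 = CH_hom` for the one cycle `H` is equivalent to
finite-dimensionality, for every filtration with the other properties.

Proof. The rings modulo `F^i` are again systems with the formal properties of the Chow rings. If `H` is in
`F^1` and in `F^i` then `H × H` is in `F^(i+1)`, so `H` is smash-nilpotent modulo `F^(i+1)`, and hence zero modulo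
`F^(i+1)` by the theorem of my hand-in `SmashNilpotentGap` on MP_bf8edd_ag. So `H` is in all `F^i`.
-/

set_option autoImplicit false

open Pool.Agent.Run7.h570.GAP

namespace Pool.Agent.Results.MP_08891c_ag.CorrespondenceFiltrations

universe u

/-- Let `R` be a system `A(m)` of rings with the formal properties of the Chow rings of the powers of a
variety, `a_i` classes in `A(1)` with the invertible symmetric intersection matrix `G` of rank `b`, let the
Euler number be `b - 2 n`, and `t = tr R a G` the complement of the part of the diagonal given by the `a_i`.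
Let `Φ.F i m` be any separated filtration which is stable under correspondences, those in `F^1` mapping
`F^i` to `F^(i+1)`. -/
theorem result {R : PowerRings.{u}} {b : ℕ} {a : Fin b → R.A 1} {G : Matrix (Fin b) (Fin b) ℚ}
    (h : PreTate R a G) (n : ℕ)
    (he : R.push (R.push (R.diag * R.diag)) = algebraMap ℚ (R.A 0) (b - 2 * n))
    (Φ : CorrFiltration R) :
    [haf (tr R a G) (n + 1) = 0,
      haf (tr R a G) (n + 1) ∈ Φ.F 1 _,
      sym (tr R a G) (2 * n + 1) = 0,
      ∃ N, sym (tr R a G) N ∈ Φ.F 1 _,
      ∃ (k : ℕ) (T : Fin k → ℕ × ℕ), Function.Injective T ∧ IsLowerSet (Set.range T) ∧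
        (2, 2 * n + 2) ∉ Set.range T ∧ young (tr R a G) T ∈ Φ.F 1 _].TFAE ∧
    (haf (tr R a G) (n + 1) ≠ 0 →
      (∀ m : ℕ, ∃ (N : ℕ) (v : Fin N → R.A m), (∀ j, IsProduct R a m (v j)) ∧
        (∀ c : Fin N → ℚ, (∑ j, c j • v j) ∈ Φ.F 1 m → c = 0) ∧
        ((b : ℤ) + (2 * n + 4 : ℕ)) ^ m + ((b : ℤ) - (2 * n + 4 : ℕ)) ^ m ≤
          2 * ((m / 2 + (2 * n + 3) * (2 * n + 5)).choose ((2 * n + 3) * (2 * n + 5)) : ℕ) * N) ∧
      (∀ (k : ℕ) (c : Equiv.Perm (Fin k) → ℚ),
        (∑ σ, c σ • ∏ i, R.pull ![Fin.castAdd k i, Fin.natAdd k (σ i)] (tr R a G)) ∈ Φ.F 1 _ →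
          SuperRel (fun x : Fin (2 * n + 4) => decide (2 ≤ (x : ℕ))) c) ∧
      (∀ m < 6 * (n + 2), ∀ c : Matching m → ℚ,
        (∑ τ, c τ • mprod (tr R a G) τ) ∈ Φ.F 1 m → c = 0)) :=
  h.corrGap n he Φ

end Pool.Agent.Results.MP_08891c_ag.CorrespondenceFiltrations
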