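import Pool.Agent.Run7.h460.BB.Final

set_option autoImplicit false

/-!
# Bloch-Beilinson filtrations: one variety at a time

`𝒱` is a class of complex smooth proper varieties which is closed under products and contains a curve
(for instance all smooth projective varieties), `C` is the theory of the Chow groups with rational
coefficients on `𝒱`, `H` is the singular cohomology with rational coefficients, and `J` is the theory of
the Abel-Jacobi maps; only their formal properties, which are collected in `IsChow`, `IsWeil` and
`IsAJ`, are used. `IsBB` are the conditions 1-4 of the problem, `F^2` being equal to the kernel of the
Abel-Jacobi map. `S` is any set of varieties such that every variety of `𝒱` is dominated by a member of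
`S` (is the image of a member of `S` under a surjective morphism): for instance the varieties with ample
canonical class, the varieties of dimension at least `n`, the products of `n` varieties of positive
dimension.

The following are equivalent:
1. There is a Bloch-Beilinson filtration, that is, a system of filtrations for all varieties of `𝒱`
   simultaneously which satisfies the conditions 1-4 for all correspondences.
2. Each single variety `P` in `S` has filtrations of its own Chow groups which satisfy the conditions
   1-3 for the self-correspondences of `P`, and the condition 4 for its self-correspondences of degree
   zero. Nothing is required about different varieties.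
3. For each `P` in `S` and `2 ≤ j ≤ m` the following holds. Let `I_r` be the ideal of the ring
   `CH^(dim P)(P × P)` of the self-correspondences which act as zero on `H^r(P)`. Then
   `Δ_* (Γ_j)_* … (Γ_2)_* z = 0` for all `z ∈ CH^m(P)` in the kernel of the Abel-Jacobi map, all
   `Γ_ν ∈ I_(2m-ν)`, `2 ≤ ν ≤ j`, and all `Δ ∈ CH^(dim P + j - m)(P × P)`.

So the negated form of the question means that there are one variety, one cycle in the kernel of its
Abel-Jacobi map and `j` self-correspondences, all but one of degree zero, with a nonzero composition.
For `m = j = 2` the condition 3 is the generalised conjecture of Bloch `I_2 · ker AJ = 0` for `CH^2`.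

Proof that 3 implies 1: define `F^ν` for `ν ≥ 3` by chains of correspondences between different
varieties which start in the kernel of the Abel-Jacobi map, the correspondence which is applied in the
`ν`-th step to a class in `CH^j(Z)` being zero on `H^(2j-ν)(Z)`. All conditions are clear except
condition 2. A chain is transported to a variety `P` in `S` which dominates the product of all its
varieties and of auxiliary varieties `T` of suitable dimensions: a class `x` on `X` is replaced by the
pull-back of `x × t`, `t` a zero-cycle of degree one on `T`; in this way all codimensions become equal
to one number `m` and all correspondences become self-correspondences of `P` of degree zero.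
-/

open Pool.Agent.H914 Pool.Agent.H914.VarClass Pool.Agent.H914.VarClass.Obj
open Pool.Agent.W492.BB hiding IsBB
open Run7.h460.BB

universe v

namespace Pool.Agent.Results.MP_08891c_ag.OneVarietyAtATime

/-- **Bloch-Beilinson filtrations exist if and only if they exist for one variety at a time.** -/
theorem result {𝒱 : VarClass ℂ} {C : TheoryData.{0, v, 0} 𝒱 ℚ} {H : WeilTheoryData.{0, v, 0} C ℚ}
    [IsChow C] [IsWeil H] (J : AJData H) [IsAJ J] (hT : ∃ T : 𝒱.Obj, T.dim = 1)
    (S : Set 𝒱.Obj) (hS : ∀ X, ∃ P ∈ S, Dominates C P X) :
    List.TFAE [∃ F : Filtration C, IsBB J F,
      ∀ P ∈ S, ∃ F : Filtration C, IsLocalBB J P F,
      ∀ P ∈ S, Vanishing J P] :=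
  main hT S hS

end Pool.Agent.Results.MP_08891c_ag.OneVarietyAtATime
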