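import Pool.Agent.Run7.h388.BJ.Final

/-!
# Bloch-Beilinson filtrations exist for all varieties if they exist in the middle dimension of the
# rational varieties, one variety at a time

Let `𝒱` be a class of smooth proper complex varieties which is closed under products, `C` the Chow
groups with rational coefficients, `H` rational cohomology, `J` the Abel-Jacobi maps, and let `S` be
a family of varieties with the property `IsFamily C e S` (for `e = 1`: all smooth projective
rational varieties; for `e = 0`: families stable under the product with a curve whose members
dominate all varieties). Then are equivalent: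

* Bloch-Beilinson filtrations (conditions 1 to 4 of the problem, with `F^2 = ker AJ`) exist, for all
  varieties simultaneously;
* each variety `P` of `S`, alone, has filtrations with the conditions 1, 2, 3 for `P` and its
  self-correspondences, condition 4 for its self-correspondences of degree zero, and
  `F^(m+1) CH^(m+e)(P) = 0`;
* for each variety `P` of `S` of even dimension `2m` the single group `CH^m(P)` has a filtration
  which starts with `CH^m(P)`, the homologically trivial classes and the kernel of the Abel-Jacobi
  map, such that the self-correspondences of degree zero which act as zero on `H^(2m-ν)(P)` map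
  `F ν` to `F (ν + 1)`, and the correspondences to `CH^(n+e)(P)` kill `F (n + 1)`;
* for each variety `P` of `S` of even dimension `2m`, for `n ≥ 2`, `n + e ≤ m`, for `z` in the kernel
  of the Abel-Jacobi map of `CH^m(P)`, and for self-correspondences `Γ 2, …, Γ n` of degree zero
  with `Γ ν` acting as zero on `H^(2m-ν)(P)`, and `Δ` of degree `n + e - m`:
  `Δ_* (Γ n)_* … (Γ 2)_* z = 0` (for the rational varieties, in `CH^3(P)`, `CH^4(P)`, …).
-/

set_option autoImplicit false

universe v

namespace Pool.Agent.Results.MP_08891c_ag.RationalMiddleDimension

open Pool.Agent.H914 Pool.Agent.W492.BB Run7.h388.BJ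
open Run7.h460.BB (AJData IsAJ)

/-- **Existence of Bloch-Beilinson filtrations: rational varieties in the middle dimension.** -/
theorem result {𝒱 : VarClass ℂ} {C : TheoryData.{0, v, 0} 𝒱 ℚ} {H : WeilTheoryData.{0, v, 0} C ℚ}
    [IsChow C] [IsWeil H] {J : AJData H} [IsAJ J] (e : ℕ) (S : Set 𝒱.Obj) (hS : IsFamily C e S) :
    List.TFAE [∃ F : Filtration C, Run7.h460.BB.IsBB J F,
      ∀ P ∈ S, ∃ F : Filtration C, IsLocalBB J e P F,
      ∀ P ∈ S, ∀ m, P.dim = 2 * m → ∃ F : ℕ → Submodule ℚ (C.A P), IsMidFiltration J e P m F,
      ∀ P ∈ S, ∀ m, P.dim = 2 * m → Vanishing J e P m] :=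
  main e S hS

end Pool.Agent.Results.MP_08891c_ag.RationalMiddleDimension
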