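import Pool.Agent.Run7.h570.AJ.Main

/-!
# Bloch-Beilinson filtrations with F^2 = ker AJ: one variety, one correspondence, one cycle

`𝒱` is a class of complex smooth proper varieties which is closed under products (for instance all
smooth projective varieties), `C` is the theory of the Chow groups with rational coefficients on `𝒱`, `H`
is the singular cohomology with rational coefficients, and `J` is the theory of the Abel-Jacobi maps;
only their formal properties, which are collected in `IsChowProj`, `IsWeilProj` and `IsAJ`, are used.
`IsBB` are the conditions 1-4 of the problem, `F^2` being equal to the kernel of the Abel-Jacobi map. `S`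
is any set of varieties such that every variety of `𝒱` is dominated by a member of `S` (is the image of a
member of `S` under a surjective morphism). `Kunneth H X` is the Künneth standard conjecture for `X`: the
Künneth components of the class of the diagonal are algebraic. It is known for products of curves,
surfaces and abelian varieties, and so for all varieties in the class `𝒱` of the varieties dominated by
such products.

The following are equivalent:
1. The Künneth standard conjecture is true, and there is a Bloch-Beilinson filtration, that is, a system
   of filtrations for all varieties of `𝒱` simultaneously which satisfies the conditions 1-4 for all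
   correspondences.
2. For each `P` in `S` the Künneth standard conjecture is true, and `P` has filtrations of its own Chow
   groups with the properties 1 and 2, such that `ε_* F^n CH^i(P) ⊆ F^(n+1) CH^i(P)` for all
   `ε ∈ CH^(dim P)(P × P)` which are zero on `H^(2i-n)(P)`.
3. For each `P` in `S` the Künneth standard conjecture is true, and
   `(γ_i)_* (γ_(i+1))_* ⋯ (γ_(2i-2))_* x = 0` for all `i`, all `x ∈ CH^i(P)` in the kernel of the
   Abel-Jacobi map, and all `γ_m ∈ CH^(dim P)(P × P)` such that `γ_m` is zero on `H^m(P)`.
4. For each `P` in `S` the Künneth standard conjecture is true, and if `ε ∈ CH^(dim P)(P × P)` is zero on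
   `H^m(P)` for `i ≤ m ≤ 2 i - 2`, then `ε^(i-1)_* x = 0` for all `x ∈ CH^i(P)` in the kernel of the
   Abel-Jacobi map.
5. For each `P` in `S` the Künneth standard conjecture is true, and if `ε ∈ CH^(dim P)(P × P)` is zero on
   `H^m(P)` for `i ≤ m ≤ 2 i - 2`, and `x ∈ CH^i(P)` is in the kernel of the Abel-Jacobi map, then
   `ε^n_* x = 0` for some `n`, which may depend on `ε` and `x`.

Moreover, under the Künneth standard conjecture, if there is a Bloch-Beilinson filtration then each
filtration as in 2 of the Chow groups of a single variety is its restriction.

So if the Künneth standard conjecture holds (for instance for varieties dominated by products of curves,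
surfaces and abelian varieties), then the negated form of the question means: there are one
variety `P` in `S`, one cycle `x` of codimension `i` in the kernel of its Abel-Jacobi map and one
self-correspondence `ε` of degree zero, which acts as zero on `H^m(P)` for `i ≤ m ≤ 2 i - 2`, such that
no `ε^n_* x` is zero. For `i = 2` the condition on `ε` concerns `H^2(P)` only: this is the generalised
conjecture of Bloch up to nilpotence.

Proof of `5 ⟹ 1`: the conditions are inherited by dominated varieties. The square of a homologically
trivial self-correspondence `γ` of `X` is in the kernel of the Abel-Jacobi map of `X × X`, and `id × γ`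
acts on it by composition with `γ`; so `γ` is nilpotent, and the Künneth projectors lift to a
Chow-Künneth decomposition `(π_m)`. If `π_m` is a phantom, then it kills the kernel of the Abel-Jacobi
map. So `π_m` is zero on `CH^i(X)` for `m < i` and `m > 2 i`, `π_(2i)` is zero on the homologically
trivial classes, and `π_(2i-1)` is zero on the kernel of the Abel-Jacobi map. Applied to `X × Y` this
shows that correspondences have a triangular form, with diagonal determined by the cohomology, and
that the filtration of Murre is a Bloch-Beilinson filtration.
-/

set_option autoImplicit false

open Pool.Agent.H914 Pool.Agent.H914.VarClass Pool.Agent.H914.VarClass.Obj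
open Pool.Agent.W492.BB hiding IsBB
open Pool.Agent.TH133 Run7.h460.BB
open Pool.Agent.Run7.h570.AJ

universe v

namespace Pool.Agent.Results.MP_08891c_ag.SingleCorrespondences

/-- **Künneth standard conjecture and Bloch-Beilinson filtrations: reduction to single varieties,
single correspondences and single cycles.** -/
theorem result {𝒱 : VarClass ℂ} {C : TheoryData.{0, v, 0} 𝒱 ℚ} {H : WeilTheoryData.{0, v, 0} C ℚ}
    [IsChowProj C] [IsWeilProj H] (J : AJData H) [IsAJ J] (S : Set 𝒱.Obj)
    (hS : ∀ X : 𝒱.Obj, ∃ P ∈ S, Dominates C P X) :
    [(∀ X, Kunneth H X) ∧ ∃ F : Filtration C, IsBB J F,
      ∀ P ∈ S, Kunneth H P ∧ ∃ G : Filtration C, IsLocal J P G,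
      ∀ P ∈ S, Kunneth H P ∧ ChainZero J P,
      ∀ P ∈ S, Kunneth H P ∧ PowZero J P,
      ∀ P ∈ S, Kunneth H P ∧ LocNil J P].TFAE ∧
    ((∀ X, Kunneth H X) → ∀ F : Filtration C, IsBB J F →
      ∀ (X : 𝒱.Obj) (G : Filtration C), IsLocal J X G ↔ ∀ i n, G.F X i n = F.F X i n) :=
  criterion S hS

end Pool.Agent.Results.MP_08891c_ag.SingleCorrespondences
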